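import Pool.Agent.V1117.Leonard

/-!
# Generating sets of primitive idempotents in a Leonard system
-/

set_option autoImplicit false

namespace Pool.Agent.Results.MP_9ad7dc_al.Generate

open Module Pool.Agent.V1117.Leonard

section irreducible

variable {K : Type*} [Field K] {V : Type*} [AddCommGroup V] [Module K V] {d : ℕ}

/-- An irreducible subalgebra that contains a rank one operator is everything. -/
theorem eq_top (v : Basis (Fin (d + 1)) K V) (B : Subalgebra K (End K V))
    (P : End K V) (hP : P ∈ B) (hP' : ∀ x, P x = v.repr x 0 • v 0)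
    (hirr : ∀ W : Submodule K V, (∀ b ∈ B, ∀ x ∈ W, b x ∈ W) → W = ⊥ ∨ W = ⊤) : B = ⊤ := by
  have hfin : FiniteDimensional K V := v.finiteDimensional_of_finite
  have h0 : v 0 ≠ 0 := v.ne_zero 0
  -- rank one operators with functional `φ ∘ c`
  have h1 : ∀ (y : V) (c : End K V), c ∈ B → ((v.coord 0).comp c).smulRight y ∈ B := by
    let W : Submodule K V :=
      { carrier := {y | ∀ c ∈ B, ((v.coord 0).comp c).smulRight y ∈ B}
        add_mem' := by
          intro a b ha hb c hc
          have : ((v.coord 0).comp c).smulRight (a + b) =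
              ((v.coord 0).comp c).smulRight a + ((v.coord 0).comp c).smulRight b := by
            ext x; simp
          rw [this]
          exact B.add_mem (ha c hc) (hb c hc)
        zero_mem' := by
          intro c _
          have : ((v.coord 0).comp c).smulRight (0 : V) = 0 := by
            ext x; simp
          rw [this]
          exact B.zero_mem
        smul_mem' := by
          intro s a ha c hc
          have : ((v.coord 0).comp c).smulRight (s • a) =
              s • ((v.coord 0).comp c).smulRight a := by
            ext x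
            simp only [LinearMap.smulRight_apply, LinearMap.comp_apply, LinearMap.smul_apply]
            rw [smul_comm]
          rw [this]
          exact B.smul_mem (ha c hc) s }
    have hW : W = ⊤ := by
      refine (hirr W ?_).resolve_left ?_
      · intro b hb y hy c hc
        have : ((v.coord 0).comp c).smulRight (b y) = b * ((v.coord 0).comp c).smulRight y := by
          ext x; simp
        rw [this]
        exact B.mul_mem hb (hy c hc)
      · intro hbot
        have hv : v 0 ∈ W := by
          intro c hc
          have : ((v.coord 0).comp c).smulRight (v 0) = P * c := by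
            ext x; simp [hP']
          rw [this]
          exact B.mul_mem hP hc
        rw [hbot] at hv
        exact h0 ((Submodule.mem_bot K).mp hv)
    intro y
    have hy : y ∈ W := by rw [hW]; trivial
    exact hy
  let Ψ : Submodule K (Dual K V) :=
    { carrier := {ψ | ∀ y, ψ.smulRight y ∈ B}
      add_mem' := by
        intro a b ha hb y
        have : (a + b).smulRight y = a.smulRight y + b.smulRight y := by
          ext x; simp [add_smul]
        rw [this]
        exact B.add_mem (ha y) (hb y)
      zero_mem' := by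
        intro y
        have : (0 : Dual K V).smulRight y = 0 := by
          ext x; simp
        rw [this]
        exact B.zero_mem
      smul_mem' := by
        intro s a ha y
        have : (s • a).smulRight y = s • a.smulRight y := by
          ext x; simp [mul_smul]
        rw [this]
        exact B.smul_mem (ha y) s }
  have hΨ : Ψ = ⊤ := by
    let N : Submodule K V :=
      { carrier := {x | ∀ c ∈ B, v.coord 0 (c x) = 0}
        add_mem' := by
          intro a b ha hb c hc
          rw [map_add, map_add, ha c hc, hb c hc, add_zero]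
        zero_mem' := by
          intro c _
          simp
        smul_mem' := by
          intro s a ha c hc
          rw [map_smul, map_smul, ha c hc, smul_zero] }
    have hN : N = ⊥ := by
      refine (hirr N ?_).resolve_right ?_
      · intro b hb x hx c hc
        exact hx (c * b) (B.mul_mem hc hb)
      · intro htop
        have : v 0 ∈ N := by rw [htop]; trivial
        have := this 1 B.one_mem
        simp at this
    have hco : Ψ.dualCoannihilator = ⊥ := by
      rw [eq_bot_iff, ← hN]
      intro x hx c hc
      rw [Submodule.mem_dualCoannihilator] at hx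
      exact hx _ (fun y => h1 y c hc)
    rw [← Subspace.dualCoannihilator_dualAnnihilator_eq (W := Ψ), hco,
      Submodule.dualAnnihilator_bot]
  rw [eq_top_iff]
  intro T _
  have : T = ∑ i, (v.coord i).smulRight (T (v i)) := by
    ext x
    conv_lhs => rw [← v.sum_repr x]
    simp only [map_sum, map_smul, LinearMap.sum_apply, LinearMap.smulRight_apply,
      Basis.coord_apply]
  rw [this]
  refine B.sum_mem fun i _ => ?_
  have hi : v.coord i ∈ Ψ := by rw [hΨ]; trivial
  exact hi _

end irreducible

/-- The generating set: `E^*_i` for `i ≤ r` and `E_j` for `j ≥ r`. -/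
def gens {𝒜 : Type*} {d : ℕ} (E Es : Fin (d + 1) → 𝒜) (r : ℕ) : Set 𝒜 :=
  {x | ∃ i : Fin (d + 1), (i : ℕ) ≤ r ∧ x = Es i} ∪ {x | ∃ j : Fin (d + 1), r ≤ (j : ℕ) ∧ x = E j}

theorem end_version {K : Type*} [Field K] {V : Type*} [AddCommGroup V] [Module K V] {d : ℕ}
    (hV : finrank K V = d + 1) {A : End K V} {E : Fin (d + 1) → End K V} {As : End K V}
    {Es : Fin (d + 1) → End K V} (h : IsLeonardSystem K A E As Es) (r : ℕ) (hr : r ≤ d) :
    Algebra.adjoin K (gens E Es r) = ⊤ := by
  obtain ⟨θ, w, θs, v, hw, hv, hvA, hvA', hwAs, hwAs'⟩ := h.bases hV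
  have hEs : ∀ i : Fin (d + 1), (i : ℕ) ≤ r → Es i ∈ Algebra.adjoin K (gens E Es r) :=
    fun i hi => Algebra.subset_adjoin (Or.inl ⟨i, hi, rfl⟩)
  have hE : ∀ j : Fin (d + 1), r ≤ (j : ℕ) → E j ∈ Algebra.adjoin K (gens E Es r) :=
    fun j hj => Algebra.subset_adjoin (Or.inr ⟨j, hj, rfl⟩)
  have F1 : ∀ j, w.repr (v 0) j ≠ 0 := hvA.repr_ne hw.eig
  have F2 : ∀ j, v.repr (w j) 0 ≠ 0 := hvA'.repr_ne hw.eig
  have F3 : ∀ i, w.repr (v i) (Fin.last d) ≠ 0 := by
    intro i
    have := hwAs.rev.repr_ne hv.eig i
    rwa [rev_repr, Fin.rev_zero] at this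
  have F4 : ∀ i, v.repr (w (Fin.last d)) i ≠ 0 := by
    intro i
    have := hwAs'.rev.repr_ne hv.eig i
    rwa [rev_zero] at this
  refine eq_top v _ (Es 0) (hEs 0 (Nat.zero_le _)) (hv.proj 0) ?_
  intro W hW
  have hsm : ∀ (c : K) (x : V), c ≠ 0 → c • x ∈ W → x ∈ W := by
    intro c x hc hx
    have := W.smul_mem c⁻¹ hx
    rwa [smul_smul, inv_mul_cancel₀ hc, one_smul] at this
  by_cases h0 : v 0 ∈ W
  · right
    have hwj : ∀ j : Fin (d + 1), r ≤ (j : ℕ) → w j ∈ W := by
      intro j hj
      have := hW _ (hE j hj) _ h0
      rw [hw.proj] at this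
      exact hsm _ _ (F1 j) this
    have hvi : ∀ i : Fin (d + 1), (i : ℕ) ≤ r → v i ∈ W := by
      intro i hi
      have := hW _ (hEs i hi) _ (hwj (Fin.last d) (by simpa using hr))
      rw [hv.proj] at this
      exact hsm _ _ (F4 i) this
    -- dimension count
    have hfin : FiniteDimensional K V := v.finiteDimensional_of_finite
    let I := {i : Fin (d + 1) // (i : ℕ) ≤ r}
    let J := {j : Fin (d + 1) // ¬ (j : ℕ) ≤ r}
    have l1 : LinearIndependent K fun i : I => v i := v.linearIndependent.comp _ Subtype.val_injective
    have l2 : LinearIndependent K fun j : J => w j := w.linearIndependent.comp _ Subtype.val_injective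
    have hdis : Disjoint (Submodule.span K (Set.range fun i : I => v i))
        (Submodule.span K (Set.range fun j : J => w j)) := by
      rw [Submodule.disjoint_def]
      intro x hx1 hx2
      refine hvA.eq_zero hw.inj hw.eig r (Finset.univ.filter fun j : Fin (d + 1) => ¬ (j : ℕ) ≤ r)
        ?_ x ?_ ?_
      · have : (Finset.univ.filter fun j : Fin (d + 1) => ¬ (j : ℕ) ≤ r) =
            Finset.Ioi (⟨r, by omega⟩ : Fin (d + 1)) := by
          ext j
          simp [Fin.lt_def]
        rw [this, Fin.card_Ioi]
        simp only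
        omega
      · intro i hi
        have hle : Submodule.span K (Set.range fun i : I => v i) ≤ LinearMap.ker (v.coord i) := by
          rw [Submodule.span_le]
          rintro _ ⟨i', rfl⟩
          have : (i' : Fin (d + 1)) ≠ i := by
            intro h'
            have := i'.2
            rw [h'] at this
            omega
          simp [this]
        simpa using hle hx1
      · intro j hj
        have hj' : (j : ℕ) ≤ r := by simpa using hj
        have hle : Submodule.span K (Set.range fun j : J => w j) ≤ LinearMap.ker (w.coord j) := by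
          rw [Submodule.span_le]
          rintro _ ⟨j', rfl⟩
          have : (j' : Fin (d + 1)) ≠ j := by
            intro h'
            have := j'.2
            rw [h'] at this
            omega
          simp [this]
        simpa using hle hx2
    have l3 := l1.sum_type l2 hdis
    have hcard : Fintype.card (I ⊕ J) = finrank K V := by
      rw [Fintype.card_sum, hV]
      have := Fintype.card_subtype_compl (fun i : Fin (d + 1) => (i : ℕ) ≤ r)
      have h2 := Fintype.card_subtype_le (fun i : Fin (d + 1) => (i : ℕ) ≤ r)
      rw [Fintype.card_fin] at this h2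
      change Fintype.card {i : Fin (d + 1) // (i : ℕ) ≤ r} +
        Fintype.card {j : Fin (d + 1) // ¬ (j : ℕ) ≤ r} = d + 1
      omega
    have hspan := l3.span_eq_top_of_card_eq_finrank' hcard
    rw [eq_top_iff, ← hspan, Submodule.span_le]
    rintro _ ⟨i | j, rfl⟩
    · exact hvi i i.2
    · exact hwj j (by have := j.2; omega)
  · left
    rw [Submodule.eq_bot_iff]
    intro x hx
    have g1 : ∀ y ∈ W, v.repr y 0 = 0 := by
      intro y hy
      by_contra hne
      have := hW _ (hEs 0 (Nat.zero_le _)) _ hy
      rw [hv.proj] at this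
      exact h0 (hsm _ _ hne this)
    have g2 : ∀ y ∈ W, ∀ j : Fin (d + 1), r ≤ (j : ℕ) → w.repr y j = 0 := by
      intro y hy j hj
      by_contra hne
      have := hW _ (hE j hj) _ hy
      rw [hw.proj] at this
      exact F2 j (g1 _ (hsm _ _ hne this))
    have g3 : ∀ y ∈ W, ∀ i : Fin (d + 1), (i : ℕ) ≤ r → v.repr y i = 0 := by
      intro y hy i hi
      by_contra hne
      have := hW _ (hEs i hi) _ hy
      rw [hv.proj] at this
      exact F3 i (g2 _ (hsm _ _ hne this) _ (by simpa using hr))
    refine hvA'.rev.eq_zero hw.inj hw.eig (d - r - 1)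
      (Finset.Iio (⟨r, by omega⟩ : Fin (d + 1))) ?_ x ?_ ?_
    · rw [Fin.card_Iio]
      simp only
      omega
    · intro i hi
      rw [rev_repr]
      refine g3 x hx _ ?_
      rw [Fin.val_rev]
      omega
    · intro j hj
      refine g2 x hx j ?_
      simpa [Fin.lt_def] using hj

/-- **`Q1` is true.** -/
theorem result (K : Type*) [Field K] (d : ℕ) (𝒜 : Type*) [Ring 𝒜] [Algebra K 𝒜]
    (e : 𝒜 ≃ₐ[K] Matrix (Fin (d + 1)) (Fin (d + 1)) K) (A : 𝒜) (E : Fin (d + 1) → 𝒜) (As : 𝒜)
    (Es : Fin (d + 1) → 𝒜) (h : IsLeonardSystem K A E As Es) (r : ℕ) (hr : r ≤ d) :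
    Algebra.adjoin K (gens E Es r) = ⊤ := by
  let f := e.trans (Matrix.toLinAlgEquiv' (R := K) (n := Fin (d + 1)))
  have h1 := end_version (by simp) (h.map f) r hr
  have h2 : gens (fun i => f (E i)) (fun i => f (Es i)) r = f '' gens E Es r := by
    ext x
    constructor
    · rintro (⟨i, hi, rfl⟩ | ⟨i, hi, rfl⟩)
      · exact ⟨_, Or.inl ⟨i, hi, rfl⟩, rfl⟩
      · exact ⟨_, Or.inr ⟨i, hi, rfl⟩, rfl⟩
    · rintro ⟨_, ⟨i, hi, rfl⟩ | ⟨i, hi, rfl⟩, rfl⟩
      · exact Or.inl ⟨i, hi, rfl⟩
      · exact Or.inr ⟨i, hi, rfl⟩
  rw [h2] at h1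
  have h3 : (Algebra.adjoin K (gens E Es r)).map f.toAlgHom = ⊤ := by
    rw [AlgHom.map_adjoin]
    exact h1
  rw [eq_top_iff]
  intro T _
  have h4 : f T ∈ (Algebra.adjoin K (gens E Es r)).map f.toAlgHom := by rw [h3]; trivial
  obtain ⟨T', hT', he⟩ := h4
  have : T' = T := f.injective he
  rwa [← this]

end Pool.Agent.Results.MP_9ad7dc_al.Generate
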